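import Pool.Agent.Lib.helper31.NumIdx

set_option autoImplicit false

namespace Pool.Agent.Results.MP_d0ed5b_an.BelowKappa

open scoped ENNReal
open Pool.Agent.Lib.helper31.NumIdx

/-- For real or complex scalars, every index set with at least two points and every
`1 < p < ∞`, `p ≠ 2`, the rank-one numerical index of `ℓ_p(ι)` is strictly below `κ_p`. -/
theorem result (𝕜 ι : Type) [RCLike 𝕜] [Nontrivial ι] (p : ℝ≥0∞) [Fact (1 ≤ p)] (h1 : 1 < p)
    (ht : p ≠ ⊤) (h2 : p ≠ 2) :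
    rankOneIndex 𝕜 (lp (fun _ : ι => 𝕜) p) < kappa p.toReal := by
  obtain ⟨T, hr, hn, hv⟩ := exists_op 𝕜 ι p h1 ht h2
  refine lt_of_le_of_lt (csInf_le ⟨0, ?_⟩ ⟨T, hr, hn, rfl⟩) hv
  rintro _ ⟨S, -, -, rfl⟩
  exact numRadius_nonneg 𝕜 _ S

end Pool.Agent.Results.MP_d0ed5b_an.BelowKappa
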